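import Pool.Agent.Helper52.T3.CFACT
import Pool.Agent.Helper24.SGB.ELAW

/-! Packet T3-CASB (MP_a41896_nt): curve lemma, constant slope. -/

set_option autoImplicit false

open MvPolynomial

namespace Pool.Agent.Helper44.T3.CASB

open WeierstrassCurve
open Pool.Agent.Helper29.BL Pool.Agent.Helper42.SG
open Pool.Agent.Helper60.T3
open Pool.Agent.Helper52.T3.CFACT (chain2 alg_of_Bf const_of_alg D_const Dx zd_zero zd_add zd_neg
  zd_sub zd_nsmul)

noncomputable section

/-! ## Polynomials in two variables -/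

section two

variable {κ L : Type} [Field κ] [Field L] [Algebra κ L]

theorem aeval_sw (x y : L) (G : MvPolynomial (Fin 2) κ) :
    aeval ![x, y] (rename (Equiv.swap (0 : Fin 2) 1) G) = aeval ![y, x] G := by
  rw [aeval_rename]
  have h : (![x, y] ∘ (Equiv.swap (0 : Fin 2) 1)) = ![y, x] := by
    funext i
    fin_cases i <;> simp
  rw [h]

theorem sw_ne {G : MvPolynomial (Fin 2) κ} (hG : G ≠ 0) :
    rename (Equiv.swap (0 : Fin 2) 1) G ≠ 0 := by
  intro h
  exact hG ((rename_injective _ (Equiv.swap (0 : Fin 2) 1).injective) (by rw [h, map_zero]))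

theorem sw_deg0 (G : MvPolynomial (Fin 2) κ) :
    (rename (Equiv.swap (0 : Fin 2) 1) G).degreeOf 0 = G.degreeOf 1 := by
  have h := degreeOf_rename_of_injective (p := G) (Equiv.swap (0 : Fin 2) 1).injective 1
  rwa [Equiv.swap_apply_right] at h

theorem sw_deg1 (G : MvPolynomial (Fin 2) κ) :
    (rename (Equiv.swap (0 : Fin 2) 1) G).degreeOf 1 = G.degreeOf 0 := by
  have h := degreeOf_rename_of_injective (p := G) (Equiv.swap (0 : Fin 2) 1).injective 0
  rwa [Equiv.swap_apply_left] at h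

theorem rel_sw {f x : L} {u v : ℕ} (h : Rel κ f x u v) : Rel κ x f v u := by
  obtain ⟨P, h0, h1, h2, h3⟩ := h
  exact ⟨_, sw_ne h0, (sw_deg0 P).trans_le h2, (sw_deg1 P).trans_le h1, by rw [aeval_sw, h3]⟩

theorem rel_le {f x : L} {u v u' v' : ℕ} (h : Rel κ f x u v) (hu : u ≤ u') (hv : v ≤ v') :
    Rel κ f x u' v' := by
  obtain ⟨P, h0, h1, h2, h3⟩ := h
  exact ⟨P, h0, h1.trans hu, h2.trans hv, h3⟩

/-- a nonzero polynomial does not vanish at all constants in the second variable -/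
theorem nv1 [Infinite κ] {x : L} (hx : Transcendental κ x) {G : MvPolynomial (Fin 2) κ}
    (hG : G ≠ 0) : ∃ b : κ, aeval ![x, algebraMap κ L b] G ≠ 0 := by
  by_contra hcon
  push Not at hcon
  apply hG
  apply MvPolynomial.funext
  intro p
  rw [map_zero]
  have h1 : (Polynomial.aeval x).comp (MvPolynomial.aeval (R := κ)
      ![(Polynomial.X : Polynomial κ), Polynomial.C (p 1)]) =
      MvPolynomial.aeval ![x, algebraMap κ L (p 1)] := by
    apply MvPolynomial.algHom_ext
    intro i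
    fin_cases i <;> simp
  have h2 : Polynomial.aeval x (MvPolynomial.aeval
      ![(Polynomial.X : Polynomial κ), Polynomial.C (p 1)] G) = 0 := by
    have := congrArg (fun f => f G) h1
    simp only [AlgHom.comp_apply] at this
    rw [this]
    exact hcon (p 1)
  have h3 := (transcendental_iff.1 hx) _ h2
  have h4 : (Polynomial.evalRingHom (p 0)).comp ((MvPolynomial.aeval (R := κ)
      ![(Polynomial.X : Polynomial κ), Polynomial.C (p 1)] : MvPolynomial (Fin 2) κ →ₐ[κ] _) :
      MvPolynomial (Fin 2) κ →+* Polynomial κ) = MvPolynomial.eval p := by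
    apply MvPolynomial.ringHom_ext
    · intro a
      simp
    · intro i
      fin_cases i <;> simp
  have h5 := congrArg (fun f => f G) h4
  simp only [RingHom.comp_apply] at h5
  rw [← h5]
  have h6 : ((MvPolynomial.aeval (R := κ)
      ![(Polynomial.X : Polynomial κ), Polynomial.C (p 1)] : MvPolynomial (Fin 2) κ →ₐ[κ] _) :
      MvPolynomial (Fin 2) κ →+* Polynomial κ) G = 0 := h3
  rw [h6, map_zero]

theorem nv0 [Infinite κ] {x : L} (hx : Transcendental κ x) {G : MvPolynomial (Fin 2) κ}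
    (hG : G ≠ 0) : ∃ b : κ, aeval ![algebraMap κ L b, x] G ≠ 0 := by
  obtain ⟨b, hb⟩ := nv1 hx (sw_ne hG)
  exact ⟨b, by rwa [aeval_sw] at hb⟩

end two

/-! ## The conjugate point -/

section sig

/-- a ring homomorphism to an algebraically closed field extends to the algebraic closure -/
theorem exi {F L : Type} [Field F] [Field L] [IsAlgClosed L] (f : F →+* L) :
    ∃ ι : AlgebraicClosure F →+* L, ι.comp (algebraMap F (AlgebraicClosure F)) = f := by
  letI := f.toAlgebra
  refine ⟨((IsAlgClosed.lift : AlgebraicClosure F →ₐ[F] L) : AlgebraicClosure F →+* L), ?_⟩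
  exact AlgHom.comp_algebraMap _

variable {κ L : Type} [Field κ] [Field L] [IsAlgClosed L] [Algebra κ L]

/-- the embedding of the algebraic closure of `κ(X)`, `X ↦ x` -/
theorem emb {x : L} (hx : Transcendental κ x) :
    ∃ ι : AlgebraicClosure (FractionRing (Polynomial κ)) →+* L,
      (ι.comp ((algebraMap (FractionRing (Polynomial κ)) (AlgebraicClosure _)).comp
        ((algebraMap (Polynomial κ) (FractionRing (Polynomial κ))).comp Polynomial.C)) =
          algebraMap κ L) ∧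
      ι (algebraMap (FractionRing (Polynomial κ)) (AlgebraicClosure _)
        (algebraMap (Polynomial κ) (FractionRing (Polynomial κ)) Polynomial.X)) = x := by
  have hinj : Function.Injective ((Polynomial.aeval x : Polynomial κ →ₐ[κ] L) :
      Polynomial κ →+* L) := transcendental_iff_injective.1 hx
  obtain ⟨ι, hι⟩ := exi (IsFractionRing.lift (K := FractionRing (Polynomial κ)) hinj)
  have key : ∀ p : Polynomial κ, ι (algebraMap (FractionRing (Polynomial κ)) (AlgebraicClosure _)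
      (algebraMap (Polynomial κ) (FractionRing (Polynomial κ)) p)) = Polynomial.aeval x p := by
    intro p
    have h := congrArg (fun f => f (algebraMap (Polynomial κ) (FractionRing (Polynomial κ)) p)) hι
    simp only [RingHom.comp_apply] at h
    rw [h, IsFractionRing.lift_algebraMap]
    rfl
  refine ⟨ι, ?_, ?_⟩
  · ext a
    simp only [RingHom.comp_apply]
    rw [key]
    simp
  · rw [key]
    simp

/-- conjugation of the generic point of a curve -/
theorem sig {x y x' : L} (hx : Transcendental κ x) (hx' : Transcendental κ x')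
    {G : MvPolynomial (Fin 2) κ} (hG : aeval ![x, y] G = 0) (hG' : ∃ c, aeval ![x, c] G ≠ 0) :
    ∃ y' : L, ∀ H : MvPolynomial (Fin 2) κ, aeval ![x, y] H = 0 ↔ aeval ![x', y'] H = 0 := by
  obtain ⟨ι, h1, h2⟩ := emb hx
  obtain ⟨ι', h1', h2'⟩ := emb hx'
  set Ω := AlgebraicClosure (FractionRing (Polynomial κ)) with hΩ
  set j : κ →+* Ω := (algebraMap (FractionRing (Polynomial κ)) (AlgebraicClosure _)).comp
        ((algebraMap (Polynomial κ) (FractionRing (Polynomial κ))).comp Polynomial.C) with hj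
  set ξ : Ω := algebraMap (FractionRing (Polynomial κ)) (AlgebraicClosure _)
        (algebraMap (Polynomial κ) (FractionRing (Polynomial κ)) Polynomial.X) with hξ
  set p : Polynomial Ω := MvPolynomial.eval₂ (Polynomial.C.comp j) ![Polynomial.C ξ, Polynomial.X] G
    with hp
  have ev : ∀ c : L, (p.map ι).eval c = aeval ![x, c] G := by
    intro c
    have e1 : (p.map ι).eval c = ((Polynomial.evalRingHom c).comp (Polynomial.mapRingHom ι)) p := rfl
    rw [e1, hp, MvPolynomial.eval₂_comp_left]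
    have e2 : ((Polynomial.evalRingHom c).comp (Polynomial.mapRingHom ι)).comp
        (Polynomial.C.comp j) = algebraMap κ L := by
      rw [← h1]
      ext a
      simp
    have e3 : (((Polynomial.evalRingHom c).comp (Polynomial.mapRingHom ι)) ∘
        ![Polynomial.C ξ, Polynomial.X]) = ![x, c] := by
      funext i
      fin_cases i
      · simpa using h2
      · simp
    rw [e2, e3]
    rfl
  have hroot : (p.map ι).IsRoot y := by
    rw [Polynomial.IsRoot, ev, hG]
  have hp0 : p ≠ 0 := by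
    rintro h
    obtain ⟨c, hc⟩ := hG'
    apply hc
    rw [← ev, h, Polynomial.map_zero, Polynomial.eval_zero]
  obtain ⟨β, hβ⟩ := (IsAlgClosed.splits p).mem_range_of_isRoot hp0 hroot
  refine ⟨ι' β, fun H => ?_⟩
  have k1 : aeval ![x, y] H = ι (MvPolynomial.eval₂ j ![ξ, β] H) := by
    rw [MvPolynomial.eval₂_comp_left, h1]
    have e3 : (ι ∘ ![ξ, β]) = ![x, y] := by
      funext i
      fin_cases i
      · simpa using h2
      · simpa using hβ
    rw [e3]
    rfl
  have k2 : aeval ![x', ι' β] H = ι' (MvPolynomial.eval₂ j ![ξ, β] H) := by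
    rw [MvPolynomial.eval₂_comp_left, h1']
    have e3 : (ι' ∘ ![ξ, β]) = ![x', ι' β] := by
      funext i
      fin_cases i
      · simpa using h2'
      · simp
    rw [e3]
    rfl
  rw [k1, k2, map_eq_zero, map_eq_zero]

end sig

/-! ## Degrees -/

section deg

variable {κ σ : Type} [Field κ]

theorem dg_add {i : σ} {p q : MvPolynomial σ κ} {n : ℕ} (hp : p.degreeOf i ≤ n)
    (hq : q.degreeOf i ≤ n) : (p + q).degreeOf i ≤ n :=
  (degreeOf_add_le i p q).trans (max_le hp hq)

theorem dg_sub {i : σ} {p q : MvPolynomial σ κ} {n : ℕ} (hp : p.degreeOf i ≤ n)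
    (hq : q.degreeOf i ≤ n) : (p - q).degreeOf i ≤ n :=
  (degreeOf_sub_le i p q).trans (max_le hp hq)

theorem dg_mul {i : σ} {p q : MvPolynomial σ κ} {a b n : ℕ} (hp : p.degreeOf i ≤ a)
    (hq : q.degreeOf i ≤ b) (h : a + b ≤ n) : (p * q).degreeOf i ≤ n :=
  (degreeOf_mul_le i p q).trans ((add_le_add hp hq).trans h)

theorem dg_pow {i : σ} {p : MvPolynomial σ κ} {a n : ℕ} (k : ℕ) (hp : p.degreeOf i ≤ a)
    (h : k * a ≤ n) : (p ^ k).degreeOf i ≤ n :=
  (degreeOf_pow_le i p k).trans ((Nat.mul_le_mul_left k hp).trans h)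

theorem dg_C {i : σ} (c : κ) (n : ℕ) : (C c : MvPolynomial σ κ).degreeOf i ≤ n := by
  rw [degreeOf_C]
  exact Nat.zero_le n

theorem dg_num {i : σ} (m n : ℕ) [m.AtLeastTwo] :
    (OfNat.ofNat m : MvPolynomial σ κ).degreeOf i ≤ n := by
  have h : (OfNat.ofNat m : MvPolynomial σ κ) = C (OfNat.ofNat m) := (map_ofNat C m).symm
  rw [h]
  exact dg_C _ n

/-- the curve over the polynomial ring -/
abbrev WP (σ : Type) (V : Affine κ) : WeierstrassCurve (MvPolynomial σ κ) := V.map C

theorem dg_Tf {i : σ} (V : Affine κ) {p q : MvPolynomial σ κ} {a b n : ℕ}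
    (hp : p.degreeOf i ≤ a) (hq : q.degreeOf i ≤ b) (h : max a b + a + b ≤ n) :
    (Tf (WP σ V) p q).degreeOf i ≤ n := by
  have h1 : (q + p).degreeOf i ≤ max a b :=
    dg_add (hq.trans (le_max_right a b)) (hp.trans (le_max_left a b))
  have h2 : (q * p).degreeOf i ≤ a + b := dg_mul hq hp (by omega)
  have h3 : max a b ≤ n := by omega
  unfold Tf
  simp only [WeierstrassCurve.map_b₂, WeierstrassCurve.map_b₄, WeierstrassCurve.map_b₆]
  refine dg_add (dg_add (dg_add ?_ ?_) ?_) (dg_C _ n)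
  · exact dg_mul (dg_mul (dg_num 2 0) h1 (by omega)) h2 (by omega : max a b + (a + b) ≤ n)
  · exact dg_mul (dg_C _ 0) h2 (by omega)
  · exact dg_mul (dg_C _ 0) h1 (by omega)

theorem dg_Bf {i : σ} (V : Affine κ) {p : MvPolynomial σ κ} {a n : ℕ}
    (hp : p.degreeOf i ≤ a) (h : 3 * a ≤ n) : (Bf (WP σ V) p).degreeOf i ≤ n := by
  unfold Bf
  simp only [WeierstrassCurve.map_b₂, WeierstrassCurve.map_b₄, WeierstrassCurve.map_b₆]
  refine dg_add (dg_add (dg_add ?_ ?_) ?_) (dg_C _ n)
  · exact dg_mul (dg_num 4 0) (dg_pow 3 hp le_rfl) (by omega)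
  · exact dg_mul (dg_C _ 0) (dg_pow 2 hp le_rfl) (by omega)
  · exact dg_mul (dg_mul (dg_num 2 0) (dg_C _ 0) le_rfl) hp (by omega)

end deg

/-! ## Elimination -/

section elim

variable {k : Type} [Field k] {κ : Type} [Field κ] {L : Type} [Field L] [Algebra k κ]
  [Algebra κ L] [Algebra k L] [IsScalarTower k κ L]

/-- one auxiliary element -/
theorem elm1 (hE : S_ELM) {x z y : L} {u v s t : ℕ} {H : MvPolynomial (Fin 2) κ}
    (hx : Transcendental κ x) (hz : Rel κ z x u v) (h0 : H.degreeOf 0 ≤ s)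
    (h1 : H.degreeOf 1 ≤ t) (hH : aeval ![z, y] H = 0) (hc : ∃ c, aeval ![z, c] H ≠ 0) :
    Rel κ y x (2 * (u * u * t)) (2 * (u * u * t) * (s * v)) := by
  have hinj : Function.Injective ![(0 : Fin 3), 2] := by decide
  have e : ∀ c : L, aeval ![z, z, c] (rename ![(0 : Fin 3), 2] H) = aeval ![z, c] H := by
    intro c
    rw [aeval_rename]
    have h : (![z, z, c] ∘ ![(0 : Fin 3), 2]) = ![z, c] := by
      funext i
      fin_cases i <;> rfl
    rw [h]
  have d0 : (rename ![(0 : Fin 3), 2] H).degreeOf 0 ≤ s := by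
    have h := degreeOf_rename_of_injective (p := H) hinj 0
    exact h.trans_le h0
  have d2 : (rename ![(0 : Fin 3), 2] H).degreeOf 2 ≤ t := by
    have h := degreeOf_rename_of_injective (p := H) hinj 1
    exact h.trans_le h1
  have d1 : (rename ![(0 : Fin 3), 2] H).degreeOf 1 ≤ 0 := by
    rw [degreeOf_eq_sup]
    refine Finset.sup_le fun m hm => ?_
    rw [support_rename_of_injective hinj, Finset.mem_image] at hm
    obtain ⟨m', -, rfl⟩ := hm
    rw [Finsupp.mapDomain_of_notMem_range]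
    intro h
    obtain ⟨i, hi⟩ := h
    revert hi
    fin_cases i <;> decide
  obtain ⟨c, hc⟩ := hc
  have h := hE κ L x z z y u v u v s 0 t (rename ![(0 : Fin 3), 2] H) hx hz hz d0 d1 d2
    (by rw [e, hH]) ⟨c, by rwa [e]⟩
  refine rel_le h le_rfl ?_
  rw [zero_mul, add_zero]

theorem aeval_Tf {σ : Type} (W : Affine k) (f : σ → L) (p q : MvPolynomial σ κ) :
    aeval f (Tf (WP σ (W.map (algebraMap k κ))) p q) = Tf (WL L W) (aeval f p) (aeval f q) := by
  simp only [Tf, WeierstrassCurve.map_b₂, WeierstrassCurve.map_b₄, WeierstrassCurve.map_b₆,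
    map_add, map_mul, map_ofNat, MvPolynomial.aeval_C,
    ← IsScalarTower.algebraMap_apply k κ L]

theorem aeval_Bf {σ : Type} (W : Affine k) (f : σ → L) (p : MvPolynomial σ κ) :
    aeval f (Bf (WP σ (W.map (algebraMap k κ))) p) = Bf (WL L W) (aeval f p) := by
  simp only [Bf, WeierstrassCurve.map_b₂, WeierstrassCurve.map_b₄, WeierstrassCurve.map_b₆,
    map_add, map_mul, map_pow, map_ofNat, MvPolynomial.aeval_C,
    ← IsScalarTower.algebraMap_apply k κ L]

/-- the relation for a difference of points -/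
theorem lawr (hE : S_ELM) [CharZero L] [DecidableEq L] (W : Affine k) {x : L}
    {P Q : (WL L W).Point} {u1 v1 u2 v2 : ℕ} (hx : Transcendental κ x) (hP : P ≠ 0) (hQ : Q ≠ 0)
    (hPQ : P ≠ Q) (hPQ' : P ≠ -Q) (h1 : Rel κ (xc P) x u1 v1) (h2 : Rel κ (xc Q) x u2 v2) :
    Rel κ (xc (P - Q)) x (2 * (u1 * u2 * 2)) (2 * (u1 * u2 * 2) * (4 * v1 + 4 * v2)) := by
  set V : Affine κ := W.map (algebraMap k κ) with hV
  set G : MvPolynomial (Fin 3) κ := (2 * Uf (X 1) (X 0) * X 2 - Tf (WP _ V) (X 1) (X 0)) ^ 2 -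
    Bf (WP _ V) (X 0) * Bf (WP _ V) (X 1) with hG
  have ev : ∀ c : L, aeval ![xc P, xc Q, c] G = (2 * Uf (xc Q) (xc P) * c -
      Tf (WL L W) (xc Q) (xc P)) ^ 2 - Bf (WL L W) (xc P) * Bf (WL L W) (xc Q) := by
    intro c
    rw [hG, hV]
    simp only [map_sub, map_mul, map_pow, aeval_Tf, aeval_Bf, Uf, aeval_X, map_ofNat]
    simp
  have hdiff := Pool.Agent.Helper24.SGB.sub_ps P Q hP hQ hPQ hPQ'
  have hxne : xc P ≠ xc Q := (Pool.Agent.Helper29.BL.add L (WL L W) P Q hP hQ hPQ hPQ').1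
  have hU : (2 : L) * Uf (xc Q) (xc P) ≠ 0 :=
    mul_ne_zero two_ne_zero (pow_ne_zero 2 (sub_ne_zero.2 hxne))
  have hz0 : G.degreeOf 0 ≤ 4 := by
    refine dg_sub (dg_pow (a := 2) 2 (dg_sub (dg_mul (a := 2) (b := 0) (dg_mul (a := 0) (b := 2)
      (dg_num 2 0) (dg_pow (a := 1) 2 (dg_sub ?_ ?_) le_rfl) le_rfl) ?_ le_rfl)
      (dg_Tf (a := 0) (b := 1) V ?_ ?_ (by simp))) (by norm_num)) (dg_mul (a := 3) (b := 0)
      (dg_Bf (a := 1) V ?_ le_rfl) (dg_Bf (a := 0) V ?_ le_rfl) (by norm_num))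
    all_goals first
      | exact (degreeOf_X_of_ne (by decide)).le
      | exact (degreeOf_X_of_ne (by decide)).le.trans zero_le_one
      | exact (degreeOf_X_self _).le
  have hz1 : G.degreeOf 1 ≤ 4 := by
    refine dg_sub (dg_pow (a := 2) 2 (dg_sub (dg_mul (a := 2) (b := 0) (dg_mul (a := 0) (b := 2)
      (dg_num 2 0) (dg_pow (a := 1) 2 (dg_sub ?_ ?_) le_rfl) le_rfl) ?_ le_rfl)
      (dg_Tf (a := 1) (b := 0) V ?_ ?_ (by simp))) (by norm_num)) (dg_mul (a := 0) (b := 3)
      (dg_Bf (a := 0) V ?_ le_rfl) (dg_Bf (a := 1) V ?_ le_rfl) (by norm_num))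
    all_goals first
      | exact (degreeOf_X_of_ne (by decide)).le
      | exact (degreeOf_X_of_ne (by decide)).le.trans zero_le_one
      | exact (degreeOf_X_self _).le
  have hz2 : G.degreeOf 2 ≤ 2 := by
    refine dg_sub (dg_pow (a := 1) 2 (dg_sub (dg_mul (a := 0) (b := 1) (dg_mul (a := 0) (b := 0)
      (dg_num 2 0) (dg_pow (a := 0) 2 (dg_sub ?_ ?_) le_rfl) le_rfl) ?_ le_rfl)
      (dg_Tf (a := 0) (b := 0) V ?_ ?_ (by simp))) (by norm_num)) (dg_mul (a := 0) (b := 0)
      (dg_Bf (a := 0) V ?_ le_rfl) (dg_Bf (a := 0) V ?_ le_rfl) (by norm_num))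
    all_goals first
      | exact (degreeOf_X_of_ne (by decide)).le
      | exact (degreeOf_X_self _).le
  refine hE κ L x (xc P) (xc Q) (xc (P - Q)) u1 v1 u2 v2 4 4 2 G hx h1 h2 hz0 hz1 hz2 ?_ ?_
  · rw [ev, hdiff, ← Pool.Agent.Helper24.SGB.ps_sq P hP, ← Pool.Agent.Helper24.SGB.ps_sq Q hQ]
    ring
  · by_contra hcon
    push Not at hcon
    have a0 := hcon (Tf (WL L W) (xc Q) (xc P) / (2 * Uf (xc Q) (xc P)))
    have a1 := hcon ((1 + Tf (WL L W) (xc Q) (xc P)) / (2 * Uf (xc Q) (xc P)))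
    rw [ev, mul_div_cancel₀ _ hU] at a0 a1
    have : (1 : L) = 0 := by linear_combination a1 - a0
    exact one_ne_zero this

end elim

/-! ## Constants and algebraic elements -/

section con

variable {k : Type} [Field k] {κ : Type} [Field κ] {L : Type} [Field L] [Algebra k κ]
  [Algebra κ L] [Algebra k L] [IsScalarTower k κ L]

theorem dg_map {i : Fin 2} (g : MvPolynomial (Fin 2) k) {n : ℕ} (h : g.degreeOf i ≤ n) :
    (map (algebraMap k κ) g).degreeOf i ≤ n := by
  refine le_trans ?_ h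
  rw [degreeOf_eq_sup, degreeOf_eq_sup]
  exact Finset.sup_mono (support_map_subset _ _)

theorem bf_mem {F : IntermediateField k L} (W : Affine k) {x : L} (hx : x ∈ F) :
    Bf (WL L W) x ∈ F := by
  unfold Bf
  simp only [WeierstrassCurve.map_b₂, WeierstrassCurve.map_b₄, WeierstrassCurve.map_b₆]
  have h4 : (4 : L) ∈ F := by
    have := F.algebraMap_mem (4 : k)
    rwa [map_ofNat] at this
  have h2 : (2 : L) ∈ F := by
    have := F.algebraMap_mem (2 : k)
    rwa [map_ofNat] at this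
  exact add_mem (add_mem (add_mem (mul_mem h4 (pow_mem hx 3))
    (mul_mem (F.algebraMap_mem _) (pow_mem hx 2)))
    (mul_mem (mul_mem h2 (F.algebraMap_mem _)) hx)) (F.algebraMap_mem _)

/-- the field of constants -/
def Fc (k κ L : Type) [Field k] [Field κ] [Field L] [Algebra k κ] [Algebra κ L] [Algebra k L]
    [IsScalarTower k κ L] : IntermediateField k L :=
  (IsScalarTower.toAlgHom k κ L).fieldRange

theorem Fc_coe : (Fc k κ L : Set L) = Set.range (algebraMap κ L) := rfl

theorem ip_of_x [IsAlgClosed κ] (W : Affine k) (P : (WL L W).Point) (hP : P ≠ 0)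
    (h : xc P ∈ Set.range (algebraMap κ L)) : IP (Set.range (algebraMap κ L)) P := by
  refine Or.inr ⟨h, const_of_alg _ ?_⟩
  have h1 : Bf (WL L W) (xc P) ∈ Fc k κ L := bf_mem W (F := Fc k κ L) h
  rw [← Pool.Agent.Helper24.SGB.ps_sq P hP] at h1
  obtain ⟨c, hc⟩ := (h1 : ps P ^ 2 ∈ Set.range (algebraMap κ L))
  have h2 : IsAlgebraic κ (ps P ^ 2) := by
    rw [← hc]
    exact isAlgebraic_algebraMap c
  exact h2.of_pow (by norm_num)

/-- the elements which are algebraic over `κ(x)` -/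
def Fa (k κ : Type) {L : Type} [Field k] [Field κ] [Field L] [Algebra k κ] [Algebra κ L]
    [Algebra k L] [IsScalarTower k κ L] (x : L) : IntermediateField k L :=
  ((algebraicClosure (IntermediateField.adjoin κ {x}) L).restrictScalars κ).restrictScalars k

theorem mem_Fa {x z : L} : z ∈ Fa k κ x ↔ IsAlgebraic (IntermediateField.adjoin κ {x}) z := by
  unfold Fa
  rw [IntermediateField.mem_restrictScalars, IntermediateField.mem_restrictScalars,
    mem_algebraicClosure_iff]

theorem Fa_const {x : L} (c : κ) : algebraMap κ L c ∈ Fa k κ x := by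
  rw [mem_Fa]
  have h := isAlgebraic_algebraMap (A := L)
    (algebraMap κ (IntermediateField.adjoin κ {x}) c)
  exact h

theorem Fa_gen (x : L) : x ∈ Fa k κ x := by
  rw [mem_Fa]
  have h := isAlgebraic_algebraMap (A := L)
    (⟨x, IntermediateField.mem_adjoin_simple_self κ x⟩ : IntermediateField.adjoin κ {x})
  exact h

theorem Fa_ps {x : L} (W : Affine k) (P : (WL L W).Point) (hP : P ≠ 0)
    (h : xc P ∈ Fa k κ x) : IP (Fa k κ x : Set L) P := by
  refine Or.inr ⟨h, ?_⟩
  have h1 : Bf (WL L W) (xc P) ∈ Fa k κ x := bf_mem W h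
  rw [← Pool.Agent.Helper24.SGB.ps_sq P hP, mem_Fa] at h1
  exact mem_Fa.2 (h1.of_pow (by norm_num))

theorem Fa_root {x z y : L} (hz : z ∈ Fa k κ x) {G : MvPolynomial (Fin 2) κ}
    (hG : aeval ![z, y] G = 0) (hG' : ∃ c, aeval ![z, c] G ≠ 0) : y ∈ Fa k κ x := by
  rw [mem_Fa] at hz ⊢
  set E := IntermediateField.adjoin κ {x} with hE
  set M := algebraicClosure E L with hM
  have hzM : z ∈ M := mem_algebraicClosure_iff.2 hz
  set j : κ →+* M := (algebraMap E M).comp (algebraMap κ E) with hj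
  set p : Polynomial M := MvPolynomial.eval₂ (Polynomial.C.comp j)
    ![Polynomial.C ⟨z, hzM⟩, Polynomial.X] G with hp
  have ev : ∀ c : L, (p.map (algebraMap M L)).eval c = aeval ![z, c] G := by
    intro c
    have e1 : (p.map (algebraMap M L)).eval c =
      ((Polynomial.evalRingHom c).comp (Polynomial.mapRingHom (algebraMap M L))) p := rfl
    rw [e1, hp, MvPolynomial.eval₂_comp_left]
    have e2 : ((Polynomial.evalRingHom c).comp (Polynomial.mapRingHom (algebraMap M L))).comp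
        (Polynomial.C.comp j) = algebraMap κ L := by
      ext a
      simp [hj]
    have e3 : (((Polynomial.evalRingHom c).comp (Polynomial.mapRingHom (algebraMap M L))) ∘
        ![Polynomial.C ⟨z, hzM⟩, Polynomial.X]) = ![z, c] := by
      funext i
      fin_cases i
      · simp
      · simp
    rw [e2, e3]
    rfl
  have hp0 : p ≠ 0 := by
    rintro h
    obtain ⟨c, hc⟩ := hG'
    apply hc
    rw [← ev, h, Polynomial.map_zero, Polynomial.eval_zero]
  have halg : IsAlgebraic M y := ⟨p, hp0, by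
    rw [← Polynomial.eval_map_algebraMap, ev, hG]⟩
  exact halg.restrictScalars E

theorem xc_neg (W : Affine L) (P : W.Point) : xc (-P) = xc P := by
  cases P <;> rfl

theorem exists_pt [IsAlgClosed L] [CharZero L] (W : Affine L) [W.IsElliptic] (ξ : L) :
    ∃ P : W.Point, P ≠ 0 ∧ xc P = ξ := by
  obtain ⟨s, hs⟩ := IsAlgClosed.exists_pow_nat_eq (Bf W ξ) (n := 2) (by norm_num)
  have h : W.Nonsingular ξ ((s - (W.a₁ * ξ + W.a₃)) / 2) := by
    rw [← Affine.equation_iff_nonsingular, Affine.equation_iff]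
    have h2 : (2 : L) ≠ 0 := two_ne_zero
    simp only [Bf, WeierstrassCurve.b₂, WeierstrassCurve.b₄, WeierstrassCurve.b₆] at hs
    field_simp
    linear_combination hs
  exact ⟨Affine.Point.some _ _ h, Affine.Point.some_ne_zero h, rfl⟩

end con

/-! ## The theorem -/

/-- the bounds of the degrees of the relation between `x(P)` and `x(a2)` -/
def cU (D0 : ℕ) : ℕ := 2 * (D0 * (2 * (4 * 4 * D0)) * 2)

/-- the bounds of the degrees of the relation between `x(P)` and `x(a2)` -/
def cV (D0 : ℕ) : ℕ :=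
  2 * (D0 * (2 * (4 * 4 * D0)) * 2) * (4 * D0 + 4 * (2 * (4 * 4 * D0) * (D0 * 32)))

theorem t (hE : S_ELM) (hT : S_TORS) (hDIV : S_DIV) (hA : S_DADD) (hS : S_SUBF) :
    Pool.Agent.Helper60.T3.S_CASB := by
  intro D0 C₀
  refine ⟨2 * (cV D0 * cV D0 * C₀) * (C₀ * cU D0), ?_⟩
  intro k κ L _ _ _ _ _ _ _ _ _ _ _ _ W2 W3 _ _ e d g g' a2 b2 a3 b3 D hc hf _ hrel hzb
  haveI : CharZero κ := charZero_of_injective_algebraMap (algebraMap k κ).injective
  haveI : CharZero L := charZero_of_injective_algebraMap (algebraMap k L).injective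
  have h4e : (4 : L) ^ e = 2 ^ e * 2 ^ e := by rw [← mul_pow]; norm_num
  obtain ⟨ζ, hζ⟩ := hzb
  -- sums of constant points
  have hFc : (Fc k κ L : Set L) = Set.range (algebraMap κ L) := rfl
  have ipadd : ∀ (W : Affine k) (P Q : (WL L W).Point), IP (Set.range (algebraMap κ L)) P →
      IP (Set.range (algebraMap κ L)) Q → IP (Set.range (algebraMap κ L)) (P + Q) := by
    intro W P Q hP hQ
    exact (hS k L W (Fc k κ L) P Q hP hQ).1
  have ntr : ∀ x : L, x ∈ Set.range (algebraMap κ L) → ¬ Transcendental κ x := by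
    rintro x ⟨c, rfl⟩ h
    exact h (isAlgebraic_algebraMap c)
  -- division
  obtain ⟨w, hw0, hw2, hwκ⟩ := hDIV k κ L W2 e ((2 ^ e) • a2 - b2) hc.kw hc.nw
  have hwx : xc w ∈ Set.range (algebraMap κ L) := by
    rcases hwκ with h | h
    · exact absurd h hw0
    · exact h.1
  have zw : zd D w = 0 := by
    unfold zd
    rw [D_const D _ hwx, zero_div]
  set c2 : (WL L W2).Point := a2 - w with hc2
  have hb2 : (2 ^ e) • c2 = b2 := by rw [hc2, smul_sub, hw2, sub_sub_cancel]
  have zc2 : zd D c2 = 1 := by rw [hc2, zd_sub hA, zw, sub_zero, hf.one]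
  have hc20 : c2 ≠ 0 := by
    intro h
    rw [h, zd_zero] at zc2
    exact zero_ne_one zc2
  have tc2 : Transcendental κ (xc c2) := by
    intro halg
    have h1 := ip_of_x W2 c2 hc20 (const_of_alg _ halg)
    have h2 : IP (Set.range (algebraMap κ L)) a2 := by
      have h3 := ipadd W2 c2 w h1 hwκ
      rwa [hc2, sub_add_cancel] at h3
    rcases h2 with h2 | h2
    · exact hc.a2n h2
    · exact ntr _ h2.1 hc.tra
  -- polynomials over `κ`
  set G' : MvPolynomial (Fin 2) κ := map (algebraMap k κ) g' with hG'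
  have hG'0 : G' ≠ 0 := by
    intro h
    exact hc.irr'.ne_zero (map_injective _ (algebraMap k κ).injective (by rw [← hG', h, map_zero]))
  have evG' : ∀ x y : L, aeval ![x, y] G' = aeval ![x, y] g' := fun x y =>
    aeval_map_algebraMap κ _ _
  set N0p : MvPolynomial (Fin 2) κ := Bf (WP (Fin 2) (W2.map (algebraMap k κ))) (X 0) *
    map (algebraMap k κ) (pderiv 0 g') ^ 2 with hN0p
  set N1p : MvPolynomial (Fin 2) κ := Bf (WP (Fin 2) (W3.map (algebraMap k κ))) (X 1) *
    map (algebraMap k κ) (pderiv 1 g') ^ 2 with hN1p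
  have evN0 : ∀ x y : L, aeval ![x, y] N0p = N0c W2 g' x y := by
    intro x y
    rw [hN0p, map_mul, map_pow, aeval_Bf, aeval_map_algebraMap, aeval_X]
    rfl
  have evN1 : ∀ x y : L, aeval ![x, y] N1p = N1c W3 g' x y := by
    intro x y
    rw [hN1p, map_mul, map_pow, aeval_Bf, aeval_map_algebraMap, aeval_X]
    rfl
  -- the conjugate point
  obtain ⟨cb, hcb⟩ := nv1 hc.trb hG'0
  obtain ⟨r, hr⟩ := sig hc.trb tc2 (G := G') (y := xc b3) (by rw [evG']; exact hc.on')
    ⟨_, hcb⟩
  have hgr : aeval ![xc c2, r] g' = 0 := by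
    rw [← evG', ← hr, evG']
    exact hc.on'
  have hn1r : N1c W3 g' (xc c2) r ≠ 0 := by
    rw [← evN1, Ne, ← hr, evN1]
    exact hf.nb
  have hslope : algebraMap κ L ζ ^ 2 * N1c W3 g' (xc c2) r = 4 ^ e * N0c W2 g' (xc c2) r := by
    have h1 := (hr (C (ζ ^ 2) * N1p - C (4 ^ e) * N0p)).1 (by
      simp only [map_sub, map_mul, aeval_C, evN0, evN1, map_pow, map_ofNat]
      rw [hζ, hf.eb, sub_self])
    simp only [map_sub, map_mul, aeval_C, evN0, evN1, map_pow, map_ofNat] at h1
    exact sub_eq_zero.1 h1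
  obtain ⟨R1, hR10, hR1x⟩ := exists_pt (WL L W3) r
  have hzR1 : zd D R1 ^ 2 * N1c W3 g' (xc c2) r = N0c W2 g' (xc c2) r := by
    have h5 := chain2 (D.restrictScalars k) (xc c2) r g'
    rw [hgr, map_zero, Derivation.restrictScalars_apply, Derivation.restrictScalars_apply,
      Dx W2 D c2 hc20, ← hR1x, Dx W3 D R1 hR10, zc2] at h5
    rw [← hR1x]
    unfold N1c N0c
    rw [← Pool.Agent.Helper24.SGB.ps_sq c2 hc20, ← Pool.Agent.Helper24.SGB.ps_sq R1 hR10]
    linear_combination
      (aeval ![xc c2, xc R1] (pderiv 0 g') * ps c2 - aeval ![xc c2, xc R1] (pderiv 1 g') *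
        (ps R1 * zd D R1)) * h5
  have hsq : (zd D b3) ^ 2 = (2 ^ e * zd D R1) ^ 2 := by
    rw [← hζ]
    apply mul_right_cancel₀ hn1r
    rw [hslope, ← hzR1, h4e]
    ring
  obtain ⟨R0, hR00, hR0x, hR0z⟩ : ∃ R0 : (WL L W3).Point, R0 ≠ 0 ∧ xc R0 = r ∧
      zd D b3 = 2 ^ e * zd D R0 := by
    rcases sq_eq_sq_iff_eq_or_eq_neg.1 hsq with h | h
    · exact ⟨R1, hR10, hR1x, h⟩
    · refine ⟨-R1, neg_ne_zero.2 hR10, by rw [xc_neg, hR1x], ?_⟩
      rw [zd_neg hA, h]
      ring
  -- the constant point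
  have zR0 : zd D ((2 ^ e) • R0) = 2 ^ e * zd D R0 := by
    rw [zd_nsmul hA]
    push_cast
    ring
  set c : (WL L W3).Point := b3 - (2 ^ e) • R0 with hcdef
  have zc : zd D c = 0 := by rw [hcdef, zd_sub hA, zR0, hR0z, sub_self]
  have xA : xc a2 ∈ Fa k κ (xc a2) := Fa_gen _
  have ipA2 : IP (Fa k κ (xc a2) : Set L) a2 := Fa_ps W2 a2 hc.a2n xA
  have ipw : IP (Fa k κ (xc a2) : Set L) w := by
    obtain ⟨cw, hcw⟩ := hwx
    refine Fa_ps W2 w hw0 ?_
    rw [← hcw]
    exact Fa_const cw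
  have ipc2 : IP (Fa k κ (xc a2) : Set L) c2 := (hS k L W2 _ a2 w ipA2 ipw).2.1
  have xc2A : xc c2 ∈ Fa k κ (xc a2) := by
    rcases ipc2 with h | h
    · exact absurd h hc20
    · exact h.1
  obtain ⟨cc, hcc⟩ := nv1 tc2 hG'0
  have xrA : r ∈ Fa k κ (xc a2) := Fa_root xc2A (by rw [evG', hgr]) ⟨_, hcc⟩
  have ipR0 : IP (Fa k κ (xc a2) : Set L) R0 := Fa_ps W3 R0 hR00 (by rw [hR0x]; exact xrA)
  have xb2A : xc b2 ∈ Fa k κ (xc a2) := by
    have h := (hS k L W2 _ c2 c2 ipc2 ipc2).2.2.2 (2 ^ e)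
    rw [hb2] at h
    rcases h with h | h
    · exact absurd h hc.b2n
    · exact h.1
  have ipb3 : IP (Fa k κ (xc a2) : Set L) b3 :=
    Fa_ps W3 b3 hc.b3n (Fa_root xb2A (by rw [evG']; exact hc.on') ⟨_, hcb⟩)
  have ipc : IP (Fa k κ (xc a2) : Set L) c :=
    (hS k L W3 _ b3 _ ipb3 ((hS k L W3 _ R0 R0 ipR0 ipR0).2.2.2 (2 ^ e))).2.1
  have hcκ : IP (Set.range (algebraMap κ L)) c := by
    by_cases h0 : c = 0
    · exact Or.inl h0
    · refine ip_of_x W3 c h0 (hf.ker _ ?_ ?_)
      · rcases ipc with h | h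
        · exact absurd h h0
        · exact mem_Fa.1 h.1
      · rw [Dx W3 D c h0, zc, mul_zero]
  -- the point `P`
  have hzne : zd D a3 ^ 2 ≠ zd D R0 ^ 2 := by
    intro h
    apply hf.ne
    rw [hR0z, h, h4e]
    ring
  set P : (WL L W3).Point := a3 - R0 with hP
  have zP : zd D P ≠ 0 := by
    rw [hP, zd_sub hA]
    intro h
    apply hzne
    rw [sub_eq_zero.1 h]
  have hP0 : P ≠ 0 := by
    intro h
    rw [h, zd_zero] at zP
    exact zP rfl
  have trP : Transcendental κ (xc P) := by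
    intro halg
    apply zP
    unfold zd
    rw [D_const D _ (const_of_alg _ halg), zero_div]
  have hw3 : (2 ^ e) • P - c = (2 ^ e) • a3 - b3 := by
    rw [hP, hcdef, smul_sub]
    abel
  -- the relations
  have hx := hc.tra
  have relx : Rel κ (xc a2) (xc a2) 1 1 := by
    refine ⟨X 0 - X 1, ?_, ?_, ?_, ?_⟩
    · intro h
      have h1 := congrArg (fun q => eval ![(1 : κ), 0] q) h
      simp at h1
    · exact dg_sub (degreeOf_X_self _).le ((degreeOf_X_of_ne (by decide)).le.trans zero_le_one)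
    · exact dg_sub ((degreeOf_X_of_ne (by decide)).le.trans zero_le_one) (degreeOf_X_self _).le
    · simp
  have relw : Rel κ (xc w) (xc a2) 1 1 := by
    obtain ⟨cw, hcw⟩ := hwx
    refine ⟨X 0 - C cw, ?_, ?_, ?_, ?_⟩
    · intro h
      have h1 := congrArg (fun q => eval ![cw + 1, 0] q) h
      simp at h1
    · exact dg_sub (degreeOf_X_self _).le (dg_C _ _)
    · exact dg_sub ((degreeOf_X_of_ne (by decide)).le.trans zero_le_one) (dg_C _ _)
    · simp [hcw]
  have hxw : xc a2 ≠ xc w := by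
    intro h
    rw [h] at hx
    exact ntr _ hwx hx
  have relc2 : Rel κ (xc c2) (xc a2) 4 32 := by
    have h := lawr hE W2 hx hc.a2n hw0 (fun h => hxw (by rw [h]))
      (fun h => hxw (by rw [h, xc_neg])) relx relw
    exact h
  have relr : Rel κ r (xc a2) (2 * (4 * 4 * D0)) (2 * (4 * 4 * D0) * (D0 * 32)) :=
    elm1 hE hx relc2 (dg_map g' (hc.deg' 0)) (dg_map g' (hc.deg' 1)) (by rw [← hG', evG', hgr])
      ⟨_, hcc⟩
  have rela3 : Rel κ (xc a3) (xc a2) D0 D0 := by
    refine rel_sw ⟨map (algebraMap k κ) g, ?_, dg_map g (hc.deg 0), dg_map g (hc.deg 1), ?_⟩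
    · intro h
      exact hc.irr.ne_zero (map_injective _ (algebraMap k κ).injective (by rw [h, map_zero]))
    · rw [aeval_map_algebraMap]
      exact hc.on
  have relP : Rel κ (xc P) (xc a2) (cU D0) (cV D0) := by
    have h1 : a3 ≠ R0 := fun h => hP0 (by rw [hP, h, sub_self])
    have h2 : a3 ≠ -R0 := by
      intro h
      apply hzne
      rw [h, zd_neg hA]
      ring
    exact lawr hE W3 hx hc.a3n hR00 h1 h2 rela3 (by rw [hR0x]; exact relr)
  obtain ⟨Q, hQ0, hQ1, hQ2, hQ3⟩ := hrel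
  obtain ⟨cq, hcq⟩ := nv1 hc.tra (sw_ne hQ0)
  have relw3 : Rel κ (xc ((2 ^ e) • a3 - b3)) (xc P) (2 * (cV D0 * cV D0 * C₀))
      (2 * (cV D0 * cV D0 * C₀) * (C₀ * d * cU D0)) :=
    elm1 hE trP (rel_sw relP) ((sw_deg0 Q).trans_le hQ2) ((sw_deg1 Q).trans_le hQ1)
      (by rw [aeval_sw, hQ3]) ⟨_, hcq⟩
  obtain ⟨R, hR0', -, hR2, hR3⟩ := relw3
  rw [← hw3] at hR3
  refine (hT k κ L W3 e P c hP0 trP hcκ R hR0' hR3).trans (hR2.trans (le_of_eq ?_))
  ring

end

end Pool.Agent.Helper44.T3.CASB
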